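import Pool.Agent.N790.CM.C
import Pool.Agent.Results.MP_5317dd_nt.AdditiveValues

/-!
# Wiggin's maps: the orbits of all integers near all multiples of Carmichael's function of almost all integers

Let `D ≥ 2`. There is `γ > 1 - H_D (log D / log (D + 1)) / log D`, `γ > 0`, `H_D` the `D`-ary entropy, such that the
following holds for `0 < η ≤ 1` and functions `G` with steps bounded below by a positive constant and growth at most
`v ^ e`, for example `G v = v`, `κ ≥ 0` and `B ≥ 1` with `B (e (1 - γ η) + κ) < 1`. For all `u ≤ N` but `N / (log N) ^ A` and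
ALL multiples `w ≤ N ^ B` of Carmichael's function `λ(u)` (for example Euler's function `φ(u)`), the orbit of EVERY
integer `n ≥ 1` with `|n - G(w)| ≤ w ^ κ` under Wiggin's map `F_D` comes down to a value `≤ n ^ η`; for `η < 1` such an
`n ≥ 2` is not the least element of a cycle or of a divergent orbit. The same is true for the common multiples `w` of the
numbers `f p`, `p` the large primes which divide `u` exactly once, if `f` takes each positive value at boundedly many
primes, for example `f p = |P(p)|` for a nonconstant polynomial `P`. Some `w` are multiples of `λ(u)` for more than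
`N ^ (1 - δ)` of the `u ≤ N`, so that this does not follow from the number of exceptional `n`.

Proof: the starting library `N790/CM` (common multiples) and the starting theorem `SharpPowerSaving` of this problem
(power saving for the exceptional set), in the form `AdditiveValues.countε`.
-/

set_option autoImplicit false

namespace Pool.Agent.Results.MP_5317dd_nt.CarmichaelMultiples

open Pool.Agent.N733.TG (Expanding expanding_pow)
open Pool.Agent.N790.CM (FewTimes Carries OnMultiples OnCarmichael fewTimes_pred fewTimes_poly keep_good_nat)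
open AdditiveValues (F ComesDown c₀)

/-- For EVERY `n ≥ 1` with `|n - u| ≤ w` the orbit of `n` under `F_D` contains a term `≤ n ^ η`, and for `n ≥ 2`, `η < 1`
a term less than `n`. -/
def Falls (D : ℕ) (η u w : ℝ) : Prop :=
  ∀ n : ℕ, 1 ≤ n → |(n : ℝ) - u| ≤ w →
    (∃ j : ℕ, (((F D)^[j] n : ℕ) : ℝ) ≤ (n : ℝ) ^ η) ∧ (2 ≤ n → η < 1 → ∃ j : ℕ, (F D)^[j] n < n)

theorem falls_of {D : ℕ} {η u w : ℝ} (h : ∀ n : ℕ, 1 ≤ n → True → |(n : ℝ) - u| ≤ w → ComesDown D η n) :
    Falls D η u w := by
  intro n hn h1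
  obtain ⟨j, hj⟩ := h n hn trivial h1
  refine ⟨⟨j, hj⟩, fun h2 h3 => ⟨j, ?_⟩⟩
  have h4 : (1 : ℝ) < n := by exact_mod_cast h2
  have h5 : (((F D)^[j] n : ℕ) : ℝ) < n := by
    refine hj.trans_lt ?_
    calc (n : ℝ) ^ η < (n : ℝ) ^ (1 : ℝ) := Real.rpow_lt_rpow_of_exponent_lt h4 h3
      _ = n := Real.rpow_one _
  exact_mod_cast h5

/-- **Wiggin's maps near all multiples of Carmichael's function of almost all integers.** Let `D ≥ 2`. There is `γ`,
`0 < γ < 1`, `γ > 1 - H_D (log D / log (D + 1)) / log D` (`H_D` the `D`-ary entropy), such that for all `G` with steps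
`≥ a > 0` and growth at most `v ^ e`, `0 < η ≤ 1`, `κ ≥ 0`, `B ≥ 1` with `B (e (1 - γ η) + κ) < 1`: for all `u ≤ N` but
`N / (log N) ^ A` and ALL multiples `w ≤ N ^ B` of `λ(u)`, and also for all common multiples `w ≤ N ^ B` of the numbers
`f p`, `p > exp (√(log N))` a prime which divides `u` exactly once, `f` any function which takes each positive value at
boundedly many primes, for EVERY `n ≥ 1` with `|n - G w| ≤ w ^ κ` the orbit of `n` under `F_D` contains a term
`≤ n ^ η` (`Falls`). Examples of `f` are `p - 1` and `|P(p)|`, `P` a nonconstant polynomial, and `α v ^ e` with `α > 0`,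
`e ≥ 1` is an example of `G`. -/
theorem result :
    (∀ D : ℕ, 2 ≤ D → ∃ γ : ℝ, (0 < γ ∧ γ < 1 ∧ c₀ D < γ) ∧
      ∀ (G : ℕ → ℝ) (e : ℝ), Expanding G e → ∀ η κ B : ℝ, 0 < η → η ≤ 1 → 0 ≤ κ → 1 ≤ B →
      B * (e * (1 - γ * η) + κ) < 1 →
      OnMultiples B (fun w => Falls D η (G w) ((w : ℝ) ^ κ)) ∧
      OnCarmichael B (fun w => Falls D η (G w) ((w : ℝ) ^ κ))) ∧
    (FewTimes (fun p => p - 1) 1 ∧
      (∀ P : Polynomial ℤ, 1 ≤ P.natDegree →
        FewTimes (fun p => (P.eval (p : ℤ)).natAbs) (2 * P.natDegree)) ∧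
      ∀ α e : ℝ, 0 < α → 1 ≤ e → Expanding (fun v => α * (v : ℝ) ^ e) e) := by
  refine ⟨fun D hD => ?_, fewTimes_pred, fun P hP => fewTimes_poly P hP, fun α e hα he => expanding_pow hα he⟩
  obtain ⟨γ, hγ, hcount⟩ := AdditiveValues.sharp D hD
  refine ⟨γ, hγ, fun G e hG η κ B hη hη1 hκ hB h1 => ?_⟩
  have key : OnMultiples B (fun w => Falls D η (G w) ((w : ℝ) ^ κ)) :=
    (keep_good_nat (fun _ => True) (ComesDown D η) hG (s := 1 - γ * η) (κ := κ) (B := B)
      (by nlinarith [hγ.1, hγ.2.1]) hκ hB h1
      (fun ε hε => AdditiveValues.countε D hγ.1 hγ.2.1 hcount η hη hη1 ε hε)).mono fun w _ hw => falls_of hw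
  exact ⟨key, key.carmichael⟩

end Pool.Agent.Results.MP_5317dd_nt.CarmichaelMultiples
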